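import Pool.Agent.K3h89.SZ.EXC

/-!
# The sifted set of the rows `x² + l²` (helper708): few `l` have many common prime factors of medium size
-/

set_option autoImplicit false

namespace Pool.Agent.U708.SR

open Finset

open Pool.Agent.K3h89.SZ.EXC (M M_nonneg M_lower M_avg sum_sq sum_dvd)

/-- the primes of medium size -/
noncomputable def Pm (L : ℝ) : Finset ℕ :=
  (Icc 1 ⌊Real.exp (√(2 * Real.log L))⌋₊).filter (fun p : ℕ => p.Prime ∧ Real.log (Real.log L) < p)

/-- the two classes -/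
noncomputable def Rh (h p : ℕ) : Finset ℕ := (range p).filter (fun r : ℕ =>
  (p : ℤ) ∣ 4 * (r : ℤ) ^ 2 + (h : ℤ) ^ 2 ∧ p.Prime ∧ p ≠ 2)

lemma card_Rh (h p : ℕ) : (Rh h p).card ≤ 3 := by
  classical
  rcases (Rh h p).eq_empty_or_nonempty with h0 | ⟨r, hr⟩
  · rw [h0]; simp
  · unfold Rh at hr
    rw [mem_filter, mem_range] at hr
    obtain ⟨hrp, hr1, hp, hp2⟩ := hr
    have := Fact.mk hp
    have hsub : Rh h p ⊆ {r, (-(r : ZMod p)).val} := by
      intro t ht
      unfold Rh at ht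
      rw [mem_filter, mem_range] at ht
      obtain ⟨htp, ht1, -, -⟩ := ht
      have h1 := dvd_sub ht1 hr1
      have e1 : 4 * (t : ℤ) ^ 2 + (h : ℤ) ^ 2 - (4 * (r : ℤ) ^ 2 + (h : ℤ) ^ 2) =
          2 * (2 * ((t : ℤ) ^ 2 - (r : ℤ) ^ 2)) := by ring
      rw [e1] at h1
      have hpz : Prime (p : ℤ) := Nat.prime_iff_prime_int.1 hp
      have hn2 : ¬ (p : ℤ) ∣ 2 := by
        intro h2
        have h3 : p ∣ 2 := by exact_mod_cast h2
        exact hp2 ((Nat.prime_dvd_prime_iff_eq hp Nat.prime_two).1 h3)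
      have h2 : (p : ℤ) ∣ (t : ℤ) ^ 2 - (r : ℤ) ^ 2 := by
        rcases hpz.dvd_or_dvd h1 with h3 | h3
        · exact absurd h3 hn2
        · rcases hpz.dvd_or_dvd h3 with h4 | h4
          · exact absurd h4 hn2
          · exact h4
      have h3 : (t : ZMod p) ^ 2 = (r : ZMod p) ^ 2 := by
        have h4 := (ZMod.intCast_zmod_eq_zero_iff_dvd ((t : ℤ) ^ 2 - (r : ℤ) ^ 2) p).2 h2
        push_cast at h4
        exact sub_eq_zero.1 h4
      rw [mem_insert, mem_singleton]
      rcases sq_eq_sq_iff_eq_or_eq_neg.1 h3 with h5 | h5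
      · left
        have h6 := congrArg ZMod.val h5
        rwa [ZMod.val_cast_of_lt htp, ZMod.val_cast_of_lt hrp] at h6
      · right
        rw [← h5, ZMod.val_cast_of_lt htp]
    calc (Rh h p).card ≤ _ := card_le_card hsub
      _ ≤ 2 := card_le_two
      _ ≤ 3 := by norm_num

lemma mod_mem_Rh (l h p : ℕ) (hp : p.Prime) (hp2 : p ≠ 2) (H : (p : ℤ) ∣ 4 * (l : ℤ) ^ 2 + (h : ℤ) ^ 2) :
    l % p ∈ Rh h p := by
  unfold Rh
  rw [mem_filter, mem_range]
  refine ⟨Nat.mod_lt _ hp.pos, ?_, hp, hp2⟩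
  have h0 : (p : ℤ) ∣ (l : ℤ) - ((l % p : ℕ) : ℤ) := by
    refine ⟨((l / p : ℕ) : ℤ), ?_⟩
    have := Nat.div_add_mod l p
    have h1 : ((p * (l / p) + l % p : ℕ) : ℤ) = (l : ℤ) := by exact_mod_cast this
    push_cast at h1 ⊢
    linarith
  have h1 := dvd_sub H (h0.mul_left (4 * ((l : ℤ) + ((l % p : ℕ) : ℤ))))
  have e : 4 * (l : ℤ) ^ 2 + (h : ℤ) ^ 2 - 4 * ((l : ℤ) + ((l % p : ℕ) : ℤ)) * ((l : ℤ) - ((l % p : ℕ) : ℤ)) =
      4 * ((l % p : ℕ) : ℤ) ^ 2 + (h : ℤ) ^ 2 := by ring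
  rwa [e] at h1

open Classical in
/-- the exceptional denominators -/
noncomputable def Ex (B : ℕ) (ε L : ℝ) : Finset ℕ := (Icc 1 ⌊L⌋₊).filter (fun l : ℕ =>
  ∃ h : ℕ, 1 ≤ h ∧ (h : ℝ) ≤ (2 * Real.log L) ^ B ∧
    ε < ∑ p ∈ (Pm L).filter (fun p : ℕ => p ∣ h ∨ (p : ℤ) ∣ 4 * (l : ℤ) ^ 2 + (h : ℤ) ^ 2), (1 : ℝ) / p)

open Classical in
theorem exc (B A : ℕ) (ε : ℝ) (hε : 0 < ε) : ∃ L₀ : ℝ, ∀ L : ℝ, L₀ ≤ L →
    ((Ex B ε L).card : ℝ) ≤ L / Real.log L ^ A := by
  -- conditions for large `L`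
  have t1 : Filter.Tendsto (fun L : ℝ => Real.log L) Filter.atTop Filter.atTop := Real.tendsto_log_atTop
  have t2 : Filter.Tendsto (fun L : ℝ => Real.log (Real.log L)) Filter.atTop Filter.atTop :=
    Real.tendsto_log_atTop.comp t1
  have t3 : Filter.Tendsto (fun L : ℝ => Real.log (Real.log (Real.log L))) Filter.atTop Filter.atTop :=
    Real.tendsto_log_atTop.comp t2
  have t4 : Filter.Tendsto (fun L : ℝ => √(Real.log L)) Filter.atTop Filter.atTop :=
    Real.tendsto_sqrt_atTop.comp t1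
  obtain ⟨L₀, hL₀⟩ := Filter.eventually_atTop.1 ((t2.eventually_ge_atTop (2 : ℝ)).and
    ((t3.eventually_ge_atTop (2 * (B + 1) / ε)).and
    ((t2.eventually_ge_atTop (24 * Real.exp (8 * (B + A + 3) / ε) / ε)).and
    ((t2.eventually_ge_atTop (8 / ε)).and
    ((t4.eventually (Real.isLittleO_log_id_atTop.def (c := 1 / ε / 2) (by positivity))).and
    ((t1.eventually_ge_atTop ((2 : ℝ) ^ B)).and
    ((t1.eventually_ge_atTop (4 : ℝ)).and (Filter.eventually_ge_atTop (4 : ℝ)))))))))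
  refine ⟨L₀, fun X hX => ?_⟩
  obtain ⟨k1, k2, k3, k4, k5, k6, k7, k8⟩ := hL₀ X hX
  set L : ℝ := Real.log X with hL
  set s : ℝ := Real.log L with hs
  have hL0 : 0 < L := by linarith
  have hLs : L = Real.exp s := by rw [hs, Real.exp_log hL0]
  have hs0 : 0 < s := by linarith
  have hX0 : 0 < X := by linarith
  have hHL : X = Real.exp L := by rw [hL, Real.exp_log hX0]
  have hLB : L ^ (B + 1) = Real.exp (s * ((B + 1 : ℕ) : ℝ)) := by
    rw [hLs, ← Real.exp_nat_mul]; congr 1; push_cast; ring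
  have h2LB : (2 * L) ^ B ≤ L ^ (B + 1) := by
    rw [mul_pow, pow_succ, mul_comm (L ^ B) L]
    exact mul_le_mul_of_nonneg_right k6 (by positivity)
  set N : ℕ := ⌊X⌋₊ with hN
  have hNX : (N : ℝ) ≤ X := Nat.floor_le hX0.le
  set K : ℕ := ⌊ε * s / 4⌋₊ with hK
  have hK1 : (K : ℝ) ≤ ε * s / 4 := Nat.floor_le (by positivity)
  have hK2 : ε * s / 8 ≤ K := by
    have h1 := Nat.lt_floor_add_one (ε * s / 4)
    rw [← hK] at h1
    have h2 : 8 ≤ ε * s := by
      have := mul_le_mul_of_nonneg_left k4 hε.le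
      rwa [mul_div_cancel₀ _ hε.ne'] at this
    linarith
  set Y : ℕ := ⌊Real.exp (√(2 * L))⌋₊ with hY
  have hY1 : (Y : ℝ) ≤ Real.exp (√(2 * L)) := Nat.floor_le (Real.exp_pos _).le
  have hsq2 : √(2 * L) ≤ 2 * √L := by
    rw [Real.sqrt_mul (by norm_num)]
    have h1 : √(2 : ℝ) ≤ 2 := by
      rw [Real.sqrt_le_left (by norm_num)]
      norm_num
    exact mul_le_mul_of_nonneg_right h1 (Real.sqrt_nonneg _)
  have hYK : 1 * Y ^ K ≤ N := by
    have h1 : (Y : ℝ) ^ K ≤ Real.exp (L / 2) := by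
      calc (Y : ℝ) ^ K ≤ (Real.exp (√(2 * L))) ^ K := pow_le_pow_left₀ (Nat.cast_nonneg _) hY1 _
        _ = Real.exp (K * √(2 * L)) := by rw [← Real.exp_nat_mul]
        _ ≤ Real.exp (L / 2) := by
          apply Real.exp_le_exp.2
          have h2 : √L * √L = L := Real.mul_self_sqrt hL0.le
          have h3 : Real.log (√L) = s / 2 := by rw [Real.log_sqrt hL0.le]
          have h4 : s / 2 ≤ 1 / ε / 2 * √L := by
            simp only [id] at k5
            rw [h3, Real.norm_of_nonneg (by positivity), Real.norm_of_nonneg (Real.sqrt_nonneg _)] at k5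
            exact k5
          have h5 : ε * s / 4 ≤ √L / 4 := by
            have h6 := mul_le_mul_of_nonneg_left h4 (by positivity : 0 ≤ ε / 2)
            have h7 : ε / 2 * (1 / ε / 2 * √L) = √L / 4 := by field_simp; ring
            rw [h7] at h6
            linarith
          calc (K : ℝ) * √(2 * L) ≤ (√L / 4) * (2 * √L) :=
                mul_le_mul (hK1.trans h5) hsq2 (Real.sqrt_nonneg _) (by positivity)
            _ = L / 2 := by rw [div_mul_eq_mul_div, mul_left_comm, h2]; ring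
    have h8 : Real.exp (L / 2) ≤ N := by
      have h9 : Real.exp (L / 2) * Real.exp (L / 2) = X := by
        rw [← Real.exp_add, hHL]
        congr 1
        ring
      have h10 : 2 ≤ Real.exp (L / 2) := by
        have := Real.add_one_le_exp (L / 2)
        linarith
      have h11 : X - 1 < N := by
        have := Nat.lt_floor_add_one X
        rw [← hN] at this
        linarith
      nlinarith
    rw [one_mul]
    exact_mod_cast h1.trans h8
  -- the primes
  set P : Finset ℕ := Pm X with hP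
  have hPm : ∀ p ∈ P, p ≤ Y ∧ p.Prime ∧ s < p := by
    intro p hp
    rw [hP, Pm, mem_filter, mem_Icc] at hp
    exact ⟨hp.1.2, hp.2⟩
  have hσ : ∑ p ∈ P, 1 / (p : ℝ) ^ 2 ≤ 2 / s :=
    sum_sq k1 P Y fun p hp => ⟨(hPm p hp).2.2, (hPm p hp).1⟩
  -- the exceptional sets
  set T : ℕ → Finset ℕ := fun h => (Icc 1 N).filter (fun n : ℕ =>
    ε / 2 < ∑ p ∈ P.filter (fun p => n % p ∈ Rh h p), 1 / (p : ℝ)) with hT
  have hTcard : ∀ h : ℕ, ((T h).card : ℝ) ≤ 2 * X * Real.exp (-((B + A + 3) * s)) := by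
    intro h
    have h1 := M_avg (fun p => Rh h p) (fun p => card_Rh h p) N Y (2 / s)
      (by positivity) K 1 0 P le_rfl (fun p hp => ⟨(hPm p hp).2.1, Nat.coprime_one_left _,
        (hPm p hp).1⟩) hσ hYK
    have h2 : ((T h).card : ℝ) * (ε / 4) ^ K ≤
        ∑ n ∈ (Icc 1 N).filter (fun n => n % 1 = 0 % 1),
          M K (P.filter (fun p => n % p ∈ Rh h p)) := by
      calc ((T h).card : ℝ) * (ε / 4) ^ K = ∑ n ∈ T h, (ε / 4) ^ K := by
            rw [sum_const, nsmul_eq_mul]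
        _ ≤ ∑ n ∈ T h, M K (P.filter (fun p => n % p ∈ Rh h p)) := by
            apply sum_le_sum
            intro n hn
            rw [hT, mem_filter] at hn
            apply M_lower (1 / s) (ε / 4) (by positivity) (by positivity) K
            · intro p hp
              rw [mem_filter] at hp
              exact one_div_le_one_div_of_le hs0 (hPm p hp.1).2.2.le
            · have h3 : (K : ℝ) * (1 / s) ≤ ε / 4 := by
                rw [mul_one_div, div_le_iff₀ hs0]
                linarith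
              linarith [hn.2]
        _ ≤ _ := by
            apply sum_le_sum_of_subset_of_nonneg
            · intro n hn
              rw [hT, mem_filter] at hn
              rw [mem_filter]
              exact ⟨hn.1, by rw [Nat.mod_one, Nat.mod_one]⟩
            · intro n _ _
              exact M_nonneg _ _
    have h3 := h2.trans h1
    have h4 : (0 : ℝ) < (ε / 4) ^ K := by positivity
    have h5 : ((T h).card : ℝ) ≤ 2 * X * (24 / (ε * s)) ^ K := by
      rw [← le_div_iff₀ h4] at h3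
      refine h3.trans ?_
      have e : 2 * (N : ℝ) / ((1 : ℕ) : ℝ) * (3 * (2 / s)) ^ K / (ε / 4) ^ K = 2 * N * (24 / (ε * s)) ^ K := by
        push_cast
        rw [div_one, mul_div_assoc, ← div_pow]
        congr 2
        field_simp
        ring
      rw [e]
      apply mul_le_mul_of_nonneg_right _ (by positivity)
      linarith
    refine h5.trans ?_
    apply mul_le_mul_of_nonneg_left _ (by positivity)
    have h6 : 24 / (ε * s) ≤ Real.exp (-(8 * (B + A + 3) / ε)) := by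
      rw [Real.exp_neg, div_le_iff₀ (by positivity), inv_mul_eq_div,
        le_div_iff₀ (Real.exp_pos _)]
      rw [div_le_iff₀ hε] at k3
      linarith
    calc (24 / (ε * s)) ^ K ≤ (Real.exp (-(8 * (B + A + 3) / ε))) ^ K :=
          pow_le_pow_left₀ (by positivity) h6 _
      _ = Real.exp (-(8 * (B + A + 3) / ε * K)) := by rw [← Real.exp_nat_mul]; congr 1; ring
      _ ≤ Real.exp (-((B + A + 3) * s)) := by
        apply Real.exp_le_exp.2
        apply neg_le_neg
        have h7 : 0 ≤ 8 * ((B : ℝ) + A + 3) / ε := by positivity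
        calc ((B : ℝ) + A + 3) * s = 8 * (B + A + 3) / ε * (ε * s / 8) := by field_simp
          _ ≤ _ := mul_le_mul_of_nonneg_left hK2 h7
  -- the union
  have hsub : Ex B ε X ⊆ (Icc 1 ⌊L ^ (B + 1)⌋₊).biUnion T := by
    intro n hn
    rw [Ex, mem_filter] at hn
    obtain ⟨hn1, m, hm1, hm2, hm3⟩ := hn
    rw [← hL] at hm2
    rw [mem_biUnion]
    have hm2' : (m : ℝ) ≤ L ^ (B + 1) := hm2.trans h2LB
    refine ⟨m, mem_Icc.2 ⟨hm1, Nat.le_floor hm2'⟩, ?_⟩
    rw [hT, mem_filter]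
    refine ⟨hn1, ?_⟩
    have e1 : ∑ p ∈ P.filter (fun p => p ∣ m), 1 / (p : ℝ) ≤ ε / 2 := by
      refine (sum_dvd k1 (B + 1) (P.filter (fun p => p ∣ m)) m hm1 (by rw [← hLB]; exact hm2') ?_).trans ?_
      · intro p hp
        rw [mem_filter] at hp
        exact ⟨(hPm p hp.1).2.1, (hPm p hp.1).2.2, hp.2⟩
      · have hls : 0 < Real.log s := Real.log_pos (by linarith)
        rw [div_le_iff₀ hls]
        rw [div_le_iff₀ hε] at k2
        push_cast
        linarith
    have e2 : P.filter (fun p : ℕ => p ∣ m ∨ (p : ℤ) ∣ 4 * (n : ℤ) ^ 2 + (m : ℤ) ^ 2) ⊆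
        P.filter (fun p => p ∣ m) ∪ P.filter (fun p => n % p ∈ Rh m p) := by
      intro p hp
      rw [mem_filter] at hp
      obtain ⟨hpP, hp5⟩ := hp
      have hp22 : p ≠ 2 := by
        intro h0
        have hp3 := (hPm p hpP).2.2
        rw [h0] at hp3
        push_cast at hp3
        linarith
      refine mem_union.2 ?_
      rcases hp5 with h1 | h1
      · left; exact mem_filter.2 ⟨hpP, h1⟩
      · right; exact mem_filter.2 ⟨hpP, mod_mem_Rh n m p (hPm p hpP).2.1 hp22 h1⟩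
    have e3 : ∑ p ∈ P.filter (fun p : ℕ => p ∣ m ∨ (p : ℤ) ∣ 4 * (n : ℤ) ^ 2 + (m : ℤ) ^ 2), (1 : ℝ) / p ≤
        ∑ p ∈ P.filter (fun p => p ∣ m), 1 / (p : ℝ) +
          ∑ p ∈ P.filter (fun p => n % p ∈ Rh m p), 1 / (p : ℝ) := by
      refine (sum_le_sum_of_subset_of_nonneg e2 fun _ _ _ => by positivity).trans ?_
      rw [← sum_union_inter]
      exact le_add_of_nonneg_right (sum_nonneg fun _ _ => by positivity)
    linarith
  have hcard := card_le_card hsub
  have hcard2 : (((Icc 1 ⌊L ^ (B + 1)⌋₊).biUnion T).card : ℝ) ≤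
      L ^ (B + 1) * (2 * X * Real.exp (-((B + A + 3) * s))) := by
    have h1 : (((Icc 1 ⌊L ^ (B + 1)⌋₊).biUnion T).card : ℝ) ≤ ∑ m ∈ Icc 1 ⌊L ^ (B + 1)⌋₊, ((T m).card : ℝ) := by
      exact_mod_cast card_biUnion_le
    refine h1.trans ((sum_le_sum fun m _ => hTcard m).trans ?_)
    rw [sum_const, nsmul_eq_mul, Nat.card_Icc, Nat.add_sub_cancel]
    apply mul_le_mul_of_nonneg_right _ (by positivity)
    exact Nat.floor_le (by positivity)
  have hfin : L ^ (B + 1) * (2 * X * Real.exp (-((B + A + 3) * s))) ≤ X / L ^ A := by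
    have h1 : L ^ (B + 1) * Real.exp (-((B + A + 3) * s)) = 1 / L ^ A * (1 / L) * (1 / L) := by
      have h2 : Real.exp (-((B + A + 3) * s)) = 1 / L ^ (B + A + 3) := by
        rw [Real.exp_neg, one_div, hLs, ← Real.exp_nat_mul]
        congr 2
        push_cast
        ring
      rw [h2]
      field_simp
      ring
    have h3 : 2 * (1 / L) * (1 / L) ≤ 1 := by
      have h30 : 1 / L ≤ 1 / 4 := one_div_le_one_div_of_le (by norm_num) k7
      have h31 : 0 < 1 / L := by positivity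
      nlinarith
    calc L ^ (B + 1) * (2 * X * Real.exp (-((B + A + 3) * s))) =
        2 * (L ^ (B + 1) * Real.exp (-((B + A + 3) * s))) * X := by ring
      _ = (2 * (1 / L) * (1 / L)) * (X / L ^ A) := by rw [h1]; ring
      _ ≤ 1 * (X / L ^ A) := mul_le_mul_of_nonneg_right h3 (by positivity)
      _ = X / L ^ A := one_mul _
  calc ((Ex B ε X).card : ℝ) ≤ (((Icc 1 ⌊L ^ (B + 1)⌋₊).biUnion T).card : ℝ) := by exact_mod_cast hcard
    _ ≤ _ := hcard2.trans hfin

end Pool.Agent.U708.SR
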