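import Pool.Agent.K3h89.SZ.Stm

/-!
# The sifted set of the rows `x² + l²` (helper708): the roots modulo primes, the common prime factors
-/

set_option autoImplicit false

namespace Pool.Agent.U708.SR

open Finset

open Pool.Agent.Y677.RSZ (rt V)
open Pool.Agent.K3h89.SZ (SysP CF)

/-- the function `x² + l²` -/
def F (l : ℕ) (x : ℤ) : ℤ := x ^ 2 + (l : ℤ) ^ 2

lemma F_per (l p : ℕ) (n : ℤ) : (p : ℤ) ∣ F l (n + p) ↔ (p : ℤ) ∣ F l n := by
  unfold F
  have h : (n + p) ^ 2 + (l : ℤ) ^ 2 = (n ^ 2 + (l : ℤ) ^ 2) + p * (2 * n + p) := by ring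
  rw [h]
  exact (Int.dvd_add_left (Dvd.intro _ rfl))

lemma rt_dvd (l p : ℕ) (hp : p.Prime) (h : p ∣ l) : rt (F l) p = 1 := by
  unfold rt F
  rw [card_eq_one]
  refine ⟨0, ?_⟩
  ext r
  rw [mem_filter, mem_range, mem_singleton]
  have h1 : (p : ℤ) ∣ (l : ℤ) ^ 2 := (Int.natCast_dvd_natCast.2 h).trans (dvd_pow_self _ two_ne_zero)
  rw [Int.dvd_add_left h1]
  constructor
  · rintro ⟨h2, h3⟩
    have h4 : (p : ℤ) ∣ (r : ℤ) := (Nat.prime_iff_prime_int.1 hp).dvd_of_dvd_pow h3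
    have h5 : p ∣ r := by exact_mod_cast h4
    exact Nat.eq_zero_of_dvd_of_lt h5 h2
  · rintro rfl
    exact ⟨hp.pos, by simp⟩

lemma rt_two (l : ℕ) : rt (F l) 2 = 1 := by
  by_cases h : 2 ∣ l
  · exact rt_dvd l 2 Nat.prime_two h
  · unfold rt F
    rw [card_eq_one]
    refine ⟨1, ?_⟩
    ext r
    rw [mem_filter, mem_range, mem_singleton]
    have hl : l % 2 = 1 := by omega
    obtain ⟨k, hk⟩ : ∃ k, l = 2 * k + 1 := ⟨l / 2, by omega⟩
    constructor
    · rintro ⟨h2, h3⟩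
      interval_cases r
      · exfalso
        rw [hk] at h3
        have h4 : ((2 : ℕ) : ℤ) ∣ 2 * (2 * (k : ℤ) * k + 2 * k) + 1 := by
          convert h3 using 1
          push_cast
          ring
        omega
      · rfl
    · rintro rfl
      refine ⟨by norm_num, ?_⟩
      rw [hk]
      push_cast
      refine ⟨2 * k * k + 2 * k + 1, by ring⟩

lemma dvd_F_iff (l p r : ℕ) : (p : ℤ) ∣ F l r ↔ (r : ZMod p) ^ 2 = - (l : ZMod p) ^ 2 := by
  unfold F
  rw [← ZMod.intCast_zmod_eq_zero_iff_dvd]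
  push_cast
  rw [add_eq_zero_iff_eq_neg]

lemma rt_three (l p : ℕ) (hp : p.Prime) (h : ¬ p ∣ l) (h3 : p % 4 = 3) : rt (F l) p = 0 := by
  have := Fact.mk hp
  unfold rt
  rw [card_eq_zero, filter_eq_empty_iff]
  intro r _ hr
  rw [dvd_F_iff] at hr
  have hl : (l : ZMod p) ≠ 0 := fun h0 => h ((ZMod.natCast_eq_zero_iff _ _).1 h0)
  exact ZMod.mod_four_ne_three_of_sq_eq_neg_sq' hl hr h3

lemma rt_one (l p : ℕ) (hp : p.Prime) (h : ¬ p ∣ l) (h1 : p % 4 = 1) : rt (F l) p = 2 := by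
  have := Fact.mk hp
  have hl : (l : ZMod p) ≠ 0 := fun h0 => h ((ZMod.natCast_eq_zero_iff _ _).1 h0)
  obtain ⟨i, hi⟩ := ZMod.exists_sq_eq_neg_one_iff.2 (by omega : p % 4 ≠ 3)
  have hi0 : i ≠ 0 := by
    rintro rfl
    simp at hi
  have hi2 : i ^ 2 = -1 := by rw [hi]; ring
  set a : ZMod p := i * l with ha
  have ha0 : a ≠ 0 := mul_ne_zero hi0 hl
  have hp2 : p ≠ 2 := by rintro rfl; norm_num at h1
  have hne : a ≠ -a := by
    intro h0
    have h2 : (2 : ZMod p) * a = 0 := by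
      calc (2 : ZMod p) * a = a + a := by ring
        _ = a + -a := by rw [← h0]
        _ = 0 := by ring
    rcases mul_eq_zero.1 h2 with h3 | h3
    · have h4 : ((2 : ℕ) : ZMod p) = 0 := by exact_mod_cast h3
      have h5 := (ZMod.natCast_eq_zero_iff _ _).1 h4
      exact hp2 ((Nat.prime_dvd_prime_iff_eq hp Nat.prime_two).1 h5)
    · exact ha0 h3
  have hset : (range p).filter (fun r : ℕ => (p : ℤ) ∣ F l r) = {a.val, (-a).val} := by
    ext r
    rw [mem_filter, mem_range, mem_insert, mem_singleton, dvd_F_iff]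
    constructor
    · rintro ⟨h2, h3⟩
      have h4 : (r : ZMod p) ^ 2 = a ^ 2 := by
        rw [h3, ha, mul_pow, hi2]
        ring
      rcases sq_eq_sq_iff_eq_or_eq_neg.1 h4 with h5 | h5
      · left
        rw [← h5, ZMod.val_cast_of_lt h2]
      · right
        rw [← h5, ZMod.val_cast_of_lt h2]
    · rintro (rfl | rfl)
      · refine ⟨ZMod.val_lt _, ?_⟩
        rw [ZMod.natCast_zmod_val, ha, mul_pow, hi2]
        ring
      · refine ⟨ZMod.val_lt _, ?_⟩
        rw [ZMod.natCast_zmod_val, neg_sq, ha, mul_pow, hi2]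
        ring
  unfold rt
  have e : ((range p).filter (fun r : ℕ => (p : ℤ) ∣ F l r)).card = 2 := by
    rw [hset, card_pair]
    intro h0
    exact hne (ZMod.val_injective p h0)
  exact e

lemma prime_mod (p : ℕ) (hp : p.Prime) (h2 : p ≠ 2) : p % 4 = 1 ∨ p % 4 = 3 := by
  have := hp.eq_two_or_odd
  omega

theorem sysF (l : ℕ) : SysP 3 (F l) where
  per := fun p _ n => F_per l p n
  root := fun p hp => by
    by_cases h : p ∣ l
    · rw [rt_dvd l p hp h]
      exact ⟨by norm_num, hp.one_lt⟩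
    · by_cases h2 : p = 2
      · subst h2
        rw [rt_two]
        exact ⟨by norm_num, by norm_num⟩
      · rcases prime_mod p hp h2 with h3 | h3
        · rw [rt_one l p hp h h3]
          have := hp.two_le
          exact ⟨by norm_num, by omega⟩
        · rw [rt_three l p hp h h3]
          exact ⟨by norm_num, hp.pos⟩

/-- the common prime factors -/
theorem cfF (l h p : ℕ) (hp : p.Prime) (hc : CF (F l) h p) : p ∣ h ∨ (p : ℤ) ∣ 4 * (l : ℤ) ^ 2 + (h : ℤ) ^ 2 := by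
  obtain ⟨x, h1, h2⟩ := hc
  unfold F at h1 h2
  have h3 := dvd_sub h2 h1
  have e : (x + h) ^ 2 + (l : ℤ) ^ 2 - (x ^ 2 + (l : ℤ) ^ 2) = h * (2 * x + h) := by ring
  rw [e] at h3
  rcases (Nat.prime_iff_prime_int.1 hp).dvd_or_dvd h3 with h4 | h4
  · left
    exact_mod_cast h4
  · right
    have h5 : (p : ℤ) ∣ (2 * x + h) * (2 * x - h) := h4.mul_right _
    have h6 : (p : ℤ) ∣ 4 * (x ^ 2 + (l : ℤ) ^ 2) := h1.mul_left _
    have h7 := dvd_sub h6 h5
    have e2 : 4 * (x ^ 2 + (l : ℤ) ^ 2) - (2 * x + h) * (2 * x - h) = 4 * (l : ℤ) ^ 2 + (h : ℤ) ^ 2 := by ring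
    rwa [e2] at h7

end Pool.Agent.U708.SR
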