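import Pool.Agent.K3h89.SZ.LAR
import Pool.Agent.U708.SR.Roots

/-!
# The sifted set of the rows `x² + l²` (helper708): the common prime factors of large size
-/

set_option autoImplicit false

namespace Pool.Agent.U708.SR

open Finset Filter Topology

open Pool.Agent.K3h89.SZ (CF lar_cnt lar_union)

/-- the bad primes -/
def bad (l B H p : ℕ) : Prop :=
  Real.exp (√(Real.log H)) ≤ p ∧ ∃ h : ℕ, 1 ≤ h ∧ (h : ℝ) ≤ Real.log H ^ B ∧ CF (F l) h p

open Classical in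
theorem lar (B : ℕ) (η : ℝ) (hη : 0 < η) : ∃ H₀ : ℕ, ∀ H : ℕ, H₀ ≤ H → ∀ l : ℕ, 1 ≤ l → l ≤ H →
    ∑ p ∈ (Icc 1 H).filter (fun p : ℕ => p.Prime ∧ bad l B H p), (1 : ℝ) / p ≤ η := by
  have hcast : Tendsto (fun H : ℕ => (H : ℝ)) atTop atTop := tendsto_natCast_atTop_atTop
  have hlog : Tendsto (fun H : ℕ => Real.log (H : ℝ)) atTop atTop :=
    Real.tendsto_log_atTop.comp hcast
  have hsq : Tendsto (fun H : ℕ => √(Real.log (H : ℝ))) atTop atTop :=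
    Real.tendsto_sqrt_atTop.comp hlog
  have e1 : ∀ᶠ H : ℕ in atTop, Real.log H ^ B ≤ H := by
    have h1 : ∀ᶠ x : ℝ in atTop, ‖Real.log x ^ B‖ ≤ 1 * ‖id x‖ :=
      (Real.isLittleO_pow_log_id_atTop (n := B)).def (by positivity)
    filter_upwards [hcast.eventually h1, hcast.eventually (eventually_gt_atTop 0)] with H h2 h3
    have h3' : (0 : ℝ) < H := h3
    rw [id, Real.norm_of_nonneg h3'.le, one_mul] at h2
    exact le_trans (Real.le_norm_self _) h2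
  have e2 : ∀ᶠ H : ℕ in atTop,
      √(Real.log (H : ℝ)) ^ (2 * B + 1) * Real.exp (-√(Real.log (H : ℝ))) < η / 8 := by
    have h1 := (Real.tendsto_pow_mul_exp_neg_atTop_nhds_zero (2 * B + 1)).comp hsq
    exact h1.eventually (gt_mem_nhds (by positivity))
  have e3 : ∀ᶠ H : ℕ in atTop, (4 : ℝ) ≤ Real.log (H : ℝ) := hlog.eventually_ge_atTop 4
  obtain ⟨H₀, hH₀⟩ := eventually_atTop.1 (e1.and (e2.and (e3.and (eventually_ge_atTop 20))))
  refine ⟨H₀, fun H hH l hl1 hlH => ?_⟩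
  obtain ⟨f1, f2, f3, f4⟩ := hH₀ H hH
  have hHR : (20 : ℝ) ≤ H := by exact_mod_cast f4
  set L : ℝ := Real.log (H : ℝ) with hL
  have hL0 : 0 ≤ L := by linarith
  set E : ℝ := Real.exp (√L) with hE
  have hu : 0 < √L := Real.sqrt_pos.2 (by linarith)
  have hE0 : 0 < E := Real.exp_pos _
  set W : ℕ → ℤ := fun h => (h : ℤ) * (4 * (l : ℤ) ^ 2 + (h : ℤ) ^ 2) with hW
  set T : ℕ → Finset ℕ := fun h => (Icc 1 H).filter (fun p : ℕ => p.Prime ∧ E ≤ p ∧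
    (p : ℤ) ∣ W h) with hT
  -- the size of `T h`
  have hcard : ∀ h ∈ Icc 1 ⌊L ^ B⌋₊, ((T h).card : ℝ) ≤ 8 * √L := by
    intro h hh
    obtain ⟨hh1, hh2⟩ := Finset.mem_Icc.1 hh
    have hhL : (h : ℝ) ≤ L ^ B := (Nat.le_floor_iff (by positivity)).1 hh2
    have hhH : (h : ℝ) ≤ H := hhL.trans f1
    have hh1' : (1 : ℝ) ≤ h := by exact_mod_cast hh1
    have hl1' : (1 : ℝ) ≤ l := by exact_mod_cast hl1
    have hlH' : (l : ℝ) ≤ H := by exact_mod_cast hlH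
    have hcst : ((W h : ℤ) : ℝ) = h * (4 * (l : ℝ) ^ 2 + (h : ℝ) ^ 2) := by
      simp only [hW]
      push_cast
      ring
    have hpos : 0 < (h : ℝ) * (4 * (l : ℝ) ^ 2 + (h : ℝ) ^ 2) := by positivity
    have g1 : W h ≠ 0 := by
      intro h0
      rw [h0] at hcst
      rw [← hcst] at hpos
      simp at hpos
    have g2 : |((W h : ℤ) : ℝ)| ≤ (H : ℝ) ^ 8 := by
      rw [hcst, abs_of_pos hpos]
      have c1 : (l : ℝ) ^ 2 ≤ (H : ℝ) ^ 2 := pow_le_pow_left₀ (by linarith) hlH' 2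
      have c2 : (h : ℝ) ^ 2 ≤ (H : ℝ) ^ 2 := pow_le_pow_left₀ (by linarith) hhH 2
      calc (h : ℝ) * (4 * (l : ℝ) ^ 2 + (h : ℝ) ^ 2) ≤ H * (5 * (H : ℝ) ^ 2) :=
            mul_le_mul hhH (by linarith) (by positivity) (by linarith)
        _ = 5 * (H : ℝ) ^ 3 := by ring
        _ ≤ H ^ 5 * (H : ℝ) ^ 3 := by
            apply mul_le_mul_of_nonneg_right _ (by positivity)
            have : (H : ℝ) ≤ H ^ 5 := le_self_pow₀ (by linarith) (by norm_num)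
            linarith
        _ = (H : ℝ) ^ 8 := by ring
    have g3 := lar_cnt g1 hE0.le g2 (T h) fun p hp => (Finset.mem_filter.1 hp).2
    have g4 := Real.log_le_log (pow_pos hE0 _) g3
    rw [Real.log_pow, Real.log_pow, hE, Real.log_exp, ← hL] at g4
    have g5 : L = √L * √L := (Real.mul_self_sqrt hL0).symm
    have g6 : ((T h).card : ℝ) * √L ≤ (8 * √L) * √L := by
      rw [mul_assoc, ← g5]
      exact_mod_cast g4
    exact le_of_mul_le_mul_right g6 hu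
  -- the sum
  have hsub : (Icc 1 H).filter (fun p : ℕ => p.Prime ∧ bad l B H p) ⊆ (Icc 1 ⌊L ^ B⌋₊).biUnion T := by
    intro p hp
    obtain ⟨hp1, hp2, hp3, h, hh1, hh2, hh3⟩ := Finset.mem_filter.1 hp
    refine Finset.mem_biUnion.2 ⟨h, Finset.mem_Icc.2 ⟨hh1, Nat.le_floor hh2⟩,
      Finset.mem_filter.2 ⟨hp1, hp2, hp3, ?_⟩⟩
    rcases cfF l h p hp2 hh3 with h1 | h1
    · exact (Int.natCast_dvd_natCast.2 h1).mul_right _
    · exact h1.mul_left _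
  have hin : ∀ h ∈ Icc 1 ⌊L ^ B⌋₊, ∑ p ∈ T h, (1 : ℝ) / p ≤ 8 * √L * Real.exp (-√L) := by
    intro h hh
    have h1 : ∀ p ∈ T h, (1 : ℝ) / p ≤ Real.exp (-√L) := by
      intro p hp
      obtain ⟨-, -, h2, -⟩ := Finset.mem_filter.1 hp
      rw [Real.exp_neg, ← hE, one_div]
      exact inv_anti₀ hE0 h2
    calc ∑ p ∈ T h, (1 : ℝ) / p ≤ ∑ _p ∈ T h, Real.exp (-√L) := Finset.sum_le_sum h1
      _ = (T h).card * Real.exp (-√L) := by rw [Finset.sum_const, nsmul_eq_mul]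
      _ ≤ 8 * √L * Real.exp (-√L) :=
        mul_le_mul_of_nonneg_right (hcard h hh) (Real.exp_pos _).le
  calc _ ≤ ∑ p ∈ (Icc 1 ⌊L ^ B⌋₊).biUnion T, (1 : ℝ) / p :=
        Finset.sum_le_sum_of_subset_of_nonneg hsub fun _ _ _ => by positivity
    _ ≤ ∑ h ∈ Icc 1 ⌊L ^ B⌋₊, ∑ p ∈ T h, (1 : ℝ) / p :=
        lar_union _ _ _ fun _ => by positivity
    _ ≤ ∑ _h ∈ Icc 1 ⌊L ^ B⌋₊, 8 * √L * Real.exp (-√L) := Finset.sum_le_sum hin
    _ = (⌊L ^ B⌋₊ : ℝ) * (8 * √L * Real.exp (-√L)) := by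
        rw [Finset.sum_const, nsmul_eq_mul, Nat.card_Icc, Nat.add_sub_cancel]
    _ ≤ L ^ B * (8 * √L * Real.exp (-√L)) :=
        mul_le_mul_of_nonneg_right (Nat.floor_le (by positivity)) (by positivity)
    _ = 8 * (√L ^ (2 * B + 1) * Real.exp (-√L)) := by
        have h1 : √L ^ (2 * B + 1) = L ^ B * √L := by
          rw [pow_succ, pow_mul, Real.sq_sqrt hL0]
        rw [h1]
        ring
    _ ≤ η := by linarith

end Pool.Agent.U708.SR
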