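import Pool.Agent.N782.GN.All2
import Pool.Agent.U708.SR.Roots
import Pool.Agent.TH423.SH.PRDP
import Pool.Agent.Y674.PSP.SEL

/-!
# The sifted set of the rows `x² + l²` (helper708): the sieve product and the constant of Hardy and Littlewood
-/

set_option autoImplicit false

namespace Pool.Agent.U708.SR

open Finset Filter Topology

open Pool.Agent.Y677.RSZ (rt V)
open Pool.Agent.TH423.SH (PS)
open Pool.Agent.N782.GN (pp SS)

/-- the character modulo `4` -/
noncomputable def chi (p : ℕ) : ℝ := ((ZMod.χ₄ (p : ZMod 4) : ℤ) : ℝ)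

lemma chi_one {p : ℕ} (h : p % 4 = 1) : chi p = 1 := by
  unfold chi
  rw [ZMod.χ₄_nat_one_mod_four h]
  norm_num

lemma chi_three {p : ℕ} (h : p % 4 = 3) : chi p = -1 := by
  unfold chi
  rw [ZMod.χ₄_nat_three_mod_four h]
  norm_num

/-- the factor of the constant for `l` -/
noncomputable def fac (l : ℕ) : ℝ := ∏ p ∈ l.primeFactors.filter (fun p => p ≠ 2), (1 - chi p / ((p : ℝ) - 1))⁻¹

lemma one_sub_chi {p : ℕ} (hp : p.Prime) (h2 : p ≠ 2) : 0 < 1 - chi p / ((p : ℝ) - 1) ∧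
    1 - 1 / (p : ℝ) ≤ (1 - chi p / ((p : ℝ) - 1))⁻¹ := by
  have h3 : 3 ≤ p := by
    have := hp.two_le
    omega
  have hpR : (3 : ℝ) ≤ p := by exact_mod_cast h3
  have hp1 : (0 : ℝ) < (p : ℝ) - 1 := by linarith
  rcases prime_mod p hp h2 with h | h
  · rw [chi_one h]
    have h1 : (1 : ℝ) / ((p : ℝ) - 1) < 1 := by
      rw [div_lt_one hp1]
      linarith
    have h0 : 0 < (1 : ℝ) - 1 / ((p : ℝ) - 1) := by linarith
    refine ⟨h0, ?_⟩
    have h4 : (1 : ℝ) ≤ (1 - 1 / ((p : ℝ) - 1))⁻¹ := by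
      rw [one_le_inv₀ h0]
      have : (0 : ℝ) < 1 / ((p : ℝ) - 1) := by positivity
      linarith
    have : (0 : ℝ) < 1 / (p : ℝ) := by positivity
    linarith
  · rw [chi_three h]
    have e : (1 : ℝ) - -1 / ((p : ℝ) - 1) = p / ((p : ℝ) - 1) := by
      field_simp
      ring
    rw [e]
    refine ⟨by positivity, ?_⟩
    rw [inv_div]
    have : (1 : ℝ) - 1 / (p : ℝ) = ((p : ℝ) - 1) / p := by
      field_simp
    rw [this]

theorem pp_mul (l z : ℕ) (hl : 0 < l) (hz : l ≤ z) : pp l z = pp 1 z * fac l := by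
  unfold pp fac
  have h0 : (Icc 3 z).filter (fun p : ℕ => p.Prime ∧ ¬ (p : ℤ) ∣ 1) = (Icc 3 z).filter Nat.Prime := by
    apply filter_congr
    intro p hp
    constructor
    · exact fun h => h.1
    · intro h
      refine ⟨h, fun hd => ?_⟩
      have := Int.natAbs_dvd_natAbs.2 hd
      rw [Int.natAbs_natCast, Int.natAbs_one, Nat.dvd_one] at this
      exact h.one_lt.ne' this
  have h1 : (Icc 3 z).filter Nat.Prime = (Icc 3 z).filter (fun p : ℕ => p.Prime ∧ ¬ (p : ℤ) ∣ (l : ℤ)) ∪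
      l.primeFactors.filter (fun p => p ≠ 2) := by
    ext p
    simp only [mem_filter, mem_Icc, mem_union, Nat.mem_primeFactors, Int.natCast_dvd_natCast]
    constructor
    · rintro ⟨⟨h3, hz'⟩, hp⟩
      by_cases hd : p ∣ l
      · exact Or.inr ⟨⟨hp, hd, hl.ne'⟩, by omega⟩
      · exact Or.inl ⟨⟨h3, hz'⟩, hp, hd⟩
    · rintro (⟨⟨h3, hz'⟩, hp, -⟩ | ⟨⟨hp, hd, -⟩, h2⟩)
      · exact ⟨⟨h3, hz'⟩, hp⟩
      · have := hp.two_le
        exact ⟨⟨by omega, (Nat.le_of_dvd hl hd).trans hz⟩, hp⟩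
  have hdis : Disjoint ((Icc 3 z).filter (fun p : ℕ => p.Prime ∧ ¬ (p : ℤ) ∣ (l : ℤ)))
      (l.primeFactors.filter (fun p => p ≠ 2)) := by
    rw [disjoint_left]
    intro p hp hp'
    rw [mem_filter] at hp hp'
    exact hp.2.2 (Int.natCast_dvd_natCast.2 (Nat.dvd_of_mem_primeFactors hp'.1))
  rw [h0, h1, prod_union hdis, mul_assoc, ← prod_mul_distrib]
  have h2 : ∏ p ∈ l.primeFactors.filter (fun p => p ≠ 2), ((1 - ((ZMod.χ₄ (p : ZMod 4) : ℤ) : ℝ) / ((p : ℝ) - 1)) *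
      (1 - chi p / ((p : ℝ) - 1))⁻¹) = 1 := by
    apply prod_eq_one
    intro p hp
    rw [mem_filter, Nat.mem_primeFactors] at hp
    exact mul_inv_cancel₀ (one_sub_chi hp.1.1 hp.2).1.ne'
  rw [h2, mul_one]

theorem SS_eq (l : ℕ) (hl : 0 < l) : SS l = SS 1 * fac l := by
  obtain ⟨h1, -⟩ := Pool.Agent.N782.GN.c_ssl (l : ℤ) (by omega)
  obtain ⟨h2, -⟩ := Pool.Agent.N782.GN.c_ssl 1 (by omega)
  have h3 := h2.mul_const (fac l)
  refine tendsto_nhds_unique (h1.congr' ?_) h3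
  filter_upwards [eventually_ge_atTop l] with z hz
  rw [pp_mul l z hl hz]

lemma fac_pos (l : ℕ) : 0 < fac l := by
  unfold fac
  apply prod_pos
  intro p hp
  rw [mem_filter, Nat.mem_primeFactors] at hp
  exact inv_pos.2 (one_sub_chi hp.1.1 hp.2).1

/-- the constant is not small -/
theorem SS_lower : ∃ c : ℝ, 0 < c ∧ ∀ l : ℕ, 2 ≤ l → c / Real.log l ≤ SS l := by
  obtain ⟨K, hK, hV⟩ := Pool.Agent.Y674.PSP.VV_le
  obtain ⟨-, hS⟩ := Pool.Agent.N782.GN.c_ssl 1 (by omega)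
  refine ⟨SS 1 / K, div_pos hS hK, fun l hl => ?_⟩
  have hlR : (2 : ℝ) ≤ l := by exact_mod_cast hl
  have hlog : 0 < Real.log l := Real.log_pos (by linarith)
  rw [SS_eq l (by omega), div_div, div_eq_mul_one_div]
  apply mul_le_mul_of_nonneg_left _ hS.le
  have h1 := hV l hl
  have hVpos : 0 < Pool.Agent.Y674.PSP.VV l := by
    unfold Pool.Agent.Y674.PSP.VV
    apply prod_pos
    intro p hp
    rw [mem_filter] at hp
    have h2 : (1 : ℝ) < p := by exact_mod_cast hp.2.one_lt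
    have h3 : (p : ℝ)⁻¹ < 1 := inv_lt_one_of_one_lt₀ h2
    have : 0 < 1 - (p : ℝ)⁻¹ := by linarith
    positivity
  have h2 : 1 / (K * Real.log l) ≤ 1 / Pool.Agent.Y674.PSP.VV l := one_div_le_one_div_of_le hVpos h1
  refine h2.trans ?_
  have h3 : 1 / Pool.Agent.Y674.PSP.VV l = ∏ p ∈ (Icc 1 l).filter Nat.Prime, (1 - (p : ℝ)⁻¹) := by
    unfold Pool.Agent.Y674.PSP.VV
    rw [one_div, ← prod_inv_distrib]
    simp only [inv_inv]
  rw [h3]
  have hsub : l.primeFactors.filter (fun p => p ≠ 2) ⊆ (Icc 1 l).filter Nat.Prime := by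
    intro p hp
    rw [mem_filter, Nat.mem_primeFactors] at hp
    rw [mem_filter, mem_Icc]
    exact ⟨⟨hp.1.1.one_lt.le, Nat.le_of_dvd (by omega) hp.1.2.1⟩, hp.1.1⟩
  have hall : ∀ p ∈ (Icc 1 l).filter Nat.Prime, 0 ≤ 1 - (p : ℝ)⁻¹ ∧ 1 - (p : ℝ)⁻¹ ≤ 1 := by
    intro p hp
    rw [mem_filter] at hp
    have h2 : (1 : ℝ) < p := by exact_mod_cast hp.2.one_lt
    have h3 : (p : ℝ)⁻¹ < 1 := inv_lt_one_of_one_lt₀ h2
    have h4 : 0 < (p : ℝ)⁻¹ := by positivity
    exact ⟨by linarith, by linarith⟩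
  calc ∏ p ∈ (Icc 1 l).filter Nat.Prime, (1 - (p : ℝ)⁻¹) ≤
      ∏ p ∈ l.primeFactors.filter (fun p => p ≠ 2), (1 - (p : ℝ)⁻¹) := by
        rw [← prod_sdiff hsub]
        apply mul_le_of_le_one_left
        · exact prod_nonneg fun p hp => (hall p (hsub hp)).1
        · exact prod_le_one (fun p hp => (hall p (mem_sdiff.1 hp).1).1)
            (fun p hp => (hall p (mem_sdiff.1 hp).1).2)
    _ ≤ fac l := by
        unfold fac
        apply Finset.prod_le_prod
        · intro p hp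
          exact (hall p (hsub hp)).1
        · intro p hp
          rw [mem_filter, Nat.mem_primeFactors] at hp
          have := (one_sub_chi hp.1.1 hp.2).2
          rwa [one_div] at this

/-- the product of the sieve -/
theorem V_eq (l H : ℕ) : V (F l) 1 H = (∏ p ∈ (Icc 1 H).filter Nat.Prime, (1 - 1 / (p : ℝ))) * pp l H := by
  classical
  have h0 : PS 1 H = (Icc 1 H).filter Nat.Prime := by
    unfold PS
    apply filter_congr
    intro p _
    constructor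
    · exact fun h => h.1
    · intro h
      exact ⟨h, fun hd => h.one_lt.ne' (Nat.dvd_one.1 hd)⟩
  have h1 : pp l H = ∏ p ∈ (Icc 1 H).filter Nat.Prime,
      (if 3 ≤ p ∧ ¬ (p : ℤ) ∣ (l : ℤ) then (1 - chi p / ((p : ℝ) - 1)) else 1) := by
    unfold pp
    rw [← prod_filter]
    apply prod_congr
    · ext p
      simp only [mem_filter, mem_Icc]
      constructor
      · rintro ⟨⟨a, b⟩, c, d⟩
        exact ⟨⟨⟨by omega, b⟩, c⟩, a, d⟩
      · rintro ⟨⟨⟨_, b⟩, c⟩, a, d⟩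
        exact ⟨⟨a, b⟩, c, d⟩
    · intro p _
      rfl
  rw [h1, ← prod_mul_distrib]
  unfold V
  rw [h0]
  apply prod_congr rfl
  intro p hp
  rw [mem_filter] at hp
  have hp := hp.2
  have hp0 : (0 : ℝ) < p := by exact_mod_cast hp.pos
  by_cases hd : p ∣ l
  · rw [rt_dvd l p hp hd, if_neg (by
      rintro ⟨-, h⟩
      exact h (Int.natCast_dvd_natCast.2 hd))]
    push_cast
    ring
  · have hdz : ¬ (p : ℤ) ∣ (l : ℤ) := fun h => hd (Int.natCast_dvd_natCast.1 h)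
    by_cases h2 : p = 2
    · subst h2
      rw [rt_two, if_neg (by omega)]
      push_cast
      ring
    · have h3 : 3 ≤ p := by
        have := hp.two_le
        omega
      have h3R : (3 : ℝ) ≤ p := by exact_mod_cast h3
      have hp1 : (p : ℝ) - 1 ≠ 0 := by linarith
      rw [if_pos ⟨h3, hdz⟩]
      rcases prime_mod p hp h2 with h | h
      · rw [rt_one l p hp hd h, chi_one h]
        push_cast
        field_simp
        ring
      · rw [rt_three l p hp hd h, chi_three h]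
        push_cast
        field_simp
        ring

theorem V_le : ∃ H₀ : ℕ, 2 ≤ H₀ ∧ ∀ H : ℕ, H₀ ≤ H → ∀ l : ℕ, 1 ≤ l → l ≤ H →
    V (F l) 1 H ≤ 2 * SS l / Real.log H := by
  obtain ⟨h1, hS⟩ := Pool.Agent.N782.GN.c_ssl 1 (by omega)
  obtain ⟨H₀, hH₀⟩ := eventually_atTop.1 (h1.eventually (ge_mem_nhds (show SS 1 < 2 * SS 1 by linarith)))
  refine ⟨max H₀ 2, le_max_right _ _, fun H hH l hl hlH => ?_⟩
  have hH2 : 2 ≤ H := (le_max_right _ _).trans hH
  have hHR : (2 : ℝ) ≤ H := by exact_mod_cast hH2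
  have hlog : 0 < Real.log H := Real.log_pos (by linarith)
  have h2 : pp 1 H ≤ 2 * SS 1 := hH₀ H ((le_max_left _ _).trans hH)
  rw [V_eq, pp_mul l H hl hlH]
  have h3 : ∏ p ∈ (Icc 1 H).filter Nat.Prime, (1 - 1 / (p : ℝ)) ≤ 1 / Real.log H := by
    have h4 := (Pool.Agent.TH423.SH.PrdP.log_le_sum H (by omega)).trans (Pool.Agent.TH423.SH.PrdP.sum_le_prod H)
    have h5 : ∏ p ∈ (Icc 1 H).filter Nat.Prime, (1 - 1 / (p : ℝ)) =
        (∏ p ∈ (Icc 1 H).filter Nat.Prime, (1 - 1 / (p : ℝ))⁻¹)⁻¹ := by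
      rw [← prod_inv_distrib]
      simp only [inv_inv]
    rw [h5, one_div]
    exact inv_anti₀ hlog h4
  have h6 : 0 ≤ ∏ p ∈ (Icc 1 H).filter Nat.Prime, (1 - 1 / (p : ℝ)) := by
    apply prod_nonneg
    intro p hp
    rw [mem_filter] at hp
    have h2 : (1 : ℝ) < p := by exact_mod_cast hp.2.one_lt
    have h3 : 1 / (p : ℝ) < 1 := by
      rw [div_lt_one (by linarith)]
      exact h2
    linarith
  have hf := fac_pos l
  rw [SS_eq l (by omega)]
  calc (∏ p ∈ (Icc 1 H).filter Nat.Prime, (1 - 1 / (p : ℝ))) * (pp 1 H * fac l) ≤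
      (∏ p ∈ (Icc 1 H).filter Nat.Prime, (1 - 1 / (p : ℝ))) * (2 * SS 1 * fac l) :=
        mul_le_mul_of_nonneg_left (mul_le_mul_of_nonneg_right h2 hf.le) h6
    _ ≤ (1 / Real.log H) * (2 * SS 1 * fac l) :=
        mul_le_mul_of_nonneg_right h3 (by positivity)
    _ = _ := by ring

end Pool.Agent.U708.SR
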