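import Pool.Agent.U708.SR.Exc
import Pool.Agent.U708.SR.Large
import Pool.Agent.U708.SR.Sing
import Pool.Agent.K3h89.SZ.Top
import Pool.Agent.N782.GN.All2

/-!
# Szemerédi's theorem relative to the primes of almost all rows (helper708)
-/

set_option autoImplicit false

namespace Pool.Agent.U708.SR

open Finset Filter Topology

open Pool.Agent.Y677.RSZ (rt V)
open Pool.Agent.K3h89.SZ (SysP CF strip)
open Pool.Agent.N782.GN (pp SS PP)

/-- the `m ≤ H` with `l² + m²` a prime -/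
def row (l H : ℕ) : Finset ℕ := (Icc 1 H).filter (fun m => (l ^ 2 + m ^ 2).Prime)

/-- `x` is a term of a `k`-term progression in `T` with difference at most `D` -/
def InP (T : Finset ℕ) (k : ℕ) (D : ℝ) (x : ℕ) : Prop :=
  ∃ a d : ℕ, 1 ≤ d ∧ (d : ℝ) ≤ D ∧ (∀ i < k, a + i * d ∈ T) ∧ ∃ i < k, x = a + i * d

lemma PP_row (l H : ℕ) : PP (fun _ => 1) l H = ((row l H).card : ℝ) := by
  unfold PP row
  rw [card_filter]
  push_cast
  refine sum_congr rfl fun n _ => ?_
  rw [one_mul]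

lemma li_ge {u : ℝ} (hu : 4 ≤ u) : u / Real.log u / 4 ≤ ∫ t in (2 : ℝ)..u, 1 / (2 * Real.log t) := by
  have hlog : 0 < Real.log u := Real.log_pos (by linarith)
  have hint : IntervalIntegrable (fun t : ℝ => 1 / (2 * Real.log t)) MeasureTheory.volume 2 u := by
    apply ContinuousOn.intervalIntegrable
    rw [Set.uIcc_of_le (by linarith)]
    apply ContinuousOn.div continuousOn_const
    · apply ContinuousOn.mul continuousOn_const
      apply Real.continuousOn_log.mono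
      intro t ht
      have := ht.1
      simp only [Set.mem_compl_iff, Set.mem_singleton_iff]
      linarith
    · intro t ht
      have := (Real.log_pos (by linarith [ht.1] : (1 : ℝ) < t))
      positivity
  have h1 : (u - 2) * (1 / (2 * Real.log u)) ≤ ∫ t in (2 : ℝ)..u, 1 / (2 * Real.log t) := by
    have e1 : ∫ _ in (2 : ℝ)..u, (1 / (2 * Real.log u)) = (u - 2) * (1 / (2 * Real.log u)) := by
      rw [intervalIntegral.integral_const, smul_eq_mul]
    rw [← e1]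
    apply intervalIntegral.integral_mono_on (by linarith) (by simp) hint
    intro t ht
    have h2 : 0 < Real.log t := Real.log_pos (by linarith [ht.1])
    exact one_div_le_one_div_of_le (by positivity)
      (mul_le_mul_of_nonneg_left (Real.log_le_log (by linarith [ht.1]) ht.2) (by norm_num))
  refine le_trans ?_ h1
  rw [mul_one_div, div_div, div_le_div_iff₀ (by positivity) (by positivity)]
  nlinarith

/-- one row -/
def Gd (k B : ℕ) (κ L : ℝ) (l H : ℕ) : Prop :=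
  (H : ℝ) / Real.log L ^ 3 ≤ (row l H).card ∧
    ∀ T ⊆ row l H, (Set.ncard {x : ℕ | x ∈ T ∧ ¬ InP T k (Real.log L ^ B) x} : ℝ) ≤ κ * (row l H).card

open Classical in
theorem one_row (k : ℕ) (κ : ℝ) (hk : 2 ≤ k) (hκ : 0 < κ) : ∃ (η : ℝ) (B₀ : ℕ), 0 < η ∧ ∃ L₀ : ℝ, ∀ L : ℝ,
    L₀ ≤ L → ∀ l H : ℕ, (l : ℝ) ≤ L → √L < l → L ≤ H → (H : ℝ) ≤ L ^ (3 / 2 : ℝ) → l ∉ Ex B₀ η L →
    |PP (fun _ => 1) l H - SS l * ∫ t in (2 : ℝ)..H, 1 / (2 * Real.log t)| ≤ H / Real.log L ^ 3 →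
    Gd k (B₀ + 1) κ L l H := by
  obtain ⟨η, hη, B, H₁, heng⟩ := Pool.Agent.K3h89.SZ.engP_all k 3 (1 / 2) (κ / 32) hk (by norm_num) (by positivity)
  obtain ⟨c, hc, hSS⟩ := SS_lower
  obtain ⟨H₂, hH₂, hV⟩ := V_le
  obtain ⟨H₃, hlar⟩ := lar B (1 / 16) (by norm_num)
  have tlog : Tendsto (fun L : ℝ => Real.log L) atTop atTop := Real.tendsto_log_atTop
  obtain ⟨L₀, hL₀⟩ := eventually_atTop.1 ((tlog.eventually_ge_atTop (16 / c)).and
    ((tlog.eventually_ge_atTop ((2 : ℝ) ^ B)).and ((tlog.eventually_ge_atTop (9 : ℝ)).and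
    ((eventually_ge_atTop (H₁ : ℝ)).and ((eventually_ge_atTop (H₂ : ℝ)).and
    ((eventually_ge_atTop (H₃ : ℝ)).and (eventually_ge_atTop (4 : ℝ))))))))
  refine ⟨η, B, hη, L₀, fun L hL l H hlL hl2 hLH hHL hEx hcount => ?_⟩
  obtain ⟨a1, a2, a3, a4, a5, a6, a7⟩ := hL₀ L hL
  have hL0 : 0 < L := by linarith
  have hH1 : H₁ ≤ H := by exact_mod_cast a4.trans hLH
  have hH2 : H₂ ≤ H := by exact_mod_cast a5.trans hLH
  have hH3 : H₃ ≤ H := by exact_mod_cast a6.trans hLH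
  have hlH : l ≤ H := by exact_mod_cast hlL.trans hLH
  have hHR : (4 : ℝ) ≤ H := a7.trans hLH
  have hH0 : (0 : ℝ) < H := by linarith
  have hlR : (2 : ℝ) < l := by
    have : (2 : ℝ) ≤ √L := by
      rw [show (2 : ℝ) = √4 by
        rw [show (4 : ℝ) = 2 ^ 2 by norm_num, Real.sqrt_sq (by norm_num)]]
      exact Real.sqrt_le_sqrt a7
    linarith
  have hl2' : 2 ≤ l := by exact_mod_cast hlR.le
  have hl1 : 1 ≤ l := by omega
  set lg : ℝ := Real.log L with hlg
  have hlg0 : 0 < lg := by linarith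
  have hlogH : Real.log H ≤ 2 * lg := by
    have h1 := Real.log_le_log hH0 hHL
    rw [Real.log_rpow hL0] at h1
    linarith
  have hlogLH : lg ≤ Real.log H := Real.log_le_log hL0 hLH
  have hlogH0 : 0 < Real.log H := by linarith
  -- the constant
  have hlogl : 0 < Real.log l := Real.log_pos (by linarith)
  have hSl : c / lg ≤ SS l := by
    refine le_trans ?_ (hSS l hl2')
    exact div_le_div_of_nonneg_left hc.le hlogl (Real.log_le_log (by linarith) hlL)
  have hS0 : 0 < SS l := (div_pos hc hlg0).trans_le hSl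
  have hmain : (H : ℝ) / lg ^ 3 ≤ SS l * (H / Real.log H) / 8 := by
    have h1 : c / lg * (H / (2 * lg)) / 8 ≤ SS l * (H / Real.log H) / 8 := by
      apply div_le_div_of_nonneg_right _ (by norm_num)
      apply mul_le_mul hSl _ (by positivity) hS0.le
      exact div_le_div_of_nonneg_left hH0.le hlogH0 hlogH
    refine le_trans ?_ h1
    rw [div_mul_div_comm, div_div, div_le_div_iff₀ (by positivity) (by positivity)]
    have h2 : 16 ≤ c * lg := by
      rw [div_le_iff₀ hc] at a1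
      linarith
    have h3 : (H : ℝ) * (lg * (2 * lg) * 8) = H * lg ^ 2 * 16 := by ring
    have h4 : c * (H : ℝ) * lg ^ 3 = H * lg ^ 2 * (c * lg) := by ring
    rw [h3, h4]
    exact mul_le_mul_of_nonneg_left h2 (by positivity)
  -- the number of the primes
  have hrow : SS l * (H / Real.log H) / 8 ≤ (row l H).card := by
    rw [PP_row] at hcount
    have h1 := (abs_le.1 hcount).1
    have h2 := mul_le_mul_of_nonneg_left (li_ge hHR) hS0.le
    have h3 : SS l * (H / Real.log H / 4) = 2 * (SS l * (H / Real.log H) / 8) := by ring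
    rw [h3] at h2
    linarith
  refine ⟨hmain.trans hrow, fun T hT => ?_⟩
  set Z : Finset ℕ := T.filter (fun x => ¬ InP T k (lg ^ (B + 1)) x) with hZ
  have hZn : (Set.ncard {x : ℕ | x ∈ T ∧ ¬ InP T k (lg ^ (B + 1)) x} : ℝ) = Z.card := by
    have : {x : ℕ | x ∈ T ∧ ¬ InP T k (lg ^ (B + 1)) x} = (Z : Set ℕ) := by
      ext x
      rw [hZ, mem_coe, mem_filter]
      rfl
    rw [this, Set.ncard_coe_finset]
  rw [hZn]
  by_contra hcon
  push Not at hcon
  -- the stripped function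
  set bd : ℕ → Prop := fun p => bad l B H p with hbd
  obtain ⟨s1, s2, s3, s4⟩ := Pool.Agent.K3h89.SZ.stripP 3 (F l) H bd (sysF l)
  have hE8 : (8 : ℝ) ≤ Real.exp (√(Real.log H)) := by
    have h1 : (3 : ℝ) ≤ √(Real.log H) := by
      rw [show (3 : ℝ) = √9 by
        rw [show (9 : ℝ) = 3 ^ 2 by norm_num, Real.sqrt_sq (by norm_num)]]
      exact Real.sqrt_le_sqrt (a3.trans hlogLH)
    have h2 : Real.exp 3 ≤ Real.exp (√(Real.log H)) := Real.exp_le_exp.2 h1
    have h3 : (2 : ℝ) ^ 3 ≤ Real.exp 1 ^ 3 := by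
      apply pow_le_pow_left₀ (by norm_num)
      linarith [Real.add_one_le_exp (1 : ℝ)]
    rw [← Real.exp_nat_mul] at h3
    norm_num at h3
    linarith
  have hVs : V (strip (F l) H bd) 1 H ≤ 2 * V (F l) 1 H := by
    apply s4
    · have h1 := hlar H hH3 l hl1 hlH
      norm_num at h1 ⊢
      exact h1
    · intro p _ hb
      have h1 : (8 : ℝ) ≤ p := hE8.trans hb.1
      have h2 : 8 ≤ p := by exact_mod_cast h1
      omega
  have hVV : κ / 32 * (H * V (strip (F l) H bd) 1 H) ≤ Z.card := by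
    have h1 := hV H hH2 l hl1 hlH
    have h2 : V (strip (F l) H bd) 1 H ≤ 4 * SS l / Real.log H := by
      calc V (strip (F l) H bd) 1 H ≤ 2 * (2 * SS l / Real.log H) := by linarith
        _ = 4 * SS l / Real.log H := by ring
    calc κ / 32 * (H * V (strip (F l) H bd) 1 H) ≤ κ / 32 * (H * (4 * SS l / Real.log H)) := by
          apply mul_le_mul_of_nonneg_left _ (by positivity)
          exact mul_le_mul_of_nonneg_left h2 hH0.le
      _ = κ * (SS l * (H / Real.log H) / 8) := by ring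
      _ ≤ κ * (row l H).card := mul_le_mul_of_nonneg_left hrow hκ.le
      _ ≤ Z.card := hcon.le
  have hcf : ∀ h p : ℕ, p.Prime → CF (strip (F l) H bd) h p → p ≤ H ∧ ¬ bd p ∧ CF (F l) h p := by
    rintro h p hp ⟨x, hx1, hx2⟩
    rw [s2 x p hp] at hx1
    rw [s2 (x + h) p hp] at hx2
    exact ⟨hx1.1, hx1.2.1, x, hx1.2.2, hx2.2.2⟩
  obtain ⟨a, d, hd1, hdB, hap⟩ := heng (strip (F l) H bd) 0 H Z s1 hH1 (by
      intro n hn
      rw [zero_add, mem_Ioc] at hn
      have hn1 : (1 : ℤ) ≤ n := by exact_mod_cast hn.1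
      have hn2 : (n : ℤ) ≤ H := by exact_mod_cast hn.2
      have hl1z : (1 : ℤ) ≤ l := by exact_mod_cast hl1
      have hl2z : (l : ℤ) ≤ H := by exact_mod_cast hlH
      have hFpos : 0 < F l n := by
        unfold F
        positivity
      obtain ⟨g1, g2⟩ := s3 n hFpos.ne'
      refine ⟨g1, g2.trans ?_⟩
      rw [abs_of_pos hFpos]
      unfold F
      have h2H : (2 : ℤ) ≤ H := by linarith [show (2 : ℤ) ≤ l by exact_mod_cast hl2']
      have e1 : (n : ℤ) ^ 2 ≤ (H : ℤ) ^ 2 := pow_le_pow_left₀ (by linarith) hn2 2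
      have e2 : (l : ℤ) ^ 2 ≤ (H : ℤ) ^ 2 := pow_le_pow_left₀ (by linarith) hl2z 2
      nlinarith [sq_nonneg (H : ℤ)])
    (by
      -- the medium primes
      intro h hh1 hhB
      have hh2 : (h : ℝ) ≤ (2 * lg) ^ B := hhB.trans (pow_le_pow_left₀ hlogH0.le hlogH B)
      have hnot : ¬ η < ∑ p ∈ (Pm L).filter (fun p : ℕ => p ∣ h ∨ (p : ℤ) ∣ 4 * (l : ℤ) ^ 2 + (h : ℤ) ^ 2),
          (1 : ℝ) / p := by
        intro hlt
        apply hEx
        rw [Ex, mem_filter]
        refine ⟨mem_Icc.2 ⟨hl1, Nat.le_floor hlL⟩, h, hh1, hh2, ?_⟩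
        convert hlt
      refine le_trans ?_ (not_lt.1 hnot)
      refine sum_le_sum_of_subset_of_nonneg ?_ fun _ _ _ => by positivity
      intro p hp
      rw [mem_filter, mem_Icc] at hp
      obtain ⟨⟨hp1, hpH⟩, hpp, hplog, hpc⟩ := hp
      obtain ⟨-, hnb, hcF⟩ := hcf h p hpp hpc
      have hpE : (p : ℝ) < Real.exp (√(Real.log H)) := by
        by_contra hcon2
        exact hnb ⟨not_lt.1 hcon2, h, hh1, hhB, hcF⟩
      rw [mem_filter, Pm, mem_filter, mem_Icc]
      refine ⟨⟨⟨hp1, Nat.le_floor ?_⟩, hpp, ?_⟩, cfF l h p hpp hcF⟩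
      · refine hpE.le.trans (Real.exp_le_exp.2 (Real.sqrt_le_sqrt hlogH))
      · refine lt_of_le_of_lt ?_ hplog
        exact Real.log_le_log hlg0 hlogLH)
    (by
      intro h hh1 hhB p hpp hpE hpc
      obtain ⟨-, hnb, hcF⟩ := hcf h p hpp hpc
      exact hnb ⟨hpE, h, hh1, hhB, hcF⟩)
    (by
      intro x hx
      rw [hZ, mem_filter] at hx
      have h1 := hT hx.1
      rw [row, mem_filter, mem_Icc] at h1
      rw [zero_add, mem_Ioc]
      exact ⟨by omega, h1.1.2⟩)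
    (by
      intro n hn p hpp hpH hdv
      rw [hZ, mem_filter] at hn
      have h1 := hT hn.1
      rw [row, mem_filter, mem_Icc] at h1
      obtain ⟨⟨hn1, hnH⟩, hpr⟩ := h1
      have h2 := ((s2 n p hpp).1 hdv).2.2
      have h3 : (p : ℤ) ∣ ((l ^ 2 + n ^ 2 : ℕ) : ℤ) := by
        unfold F at h2
        push_cast
        rw [add_comm]
        exact h2
      have h4 : p ∣ l ^ 2 + n ^ 2 := Int.natCast_dvd_natCast.1 h3
      have h5 : p = l ^ 2 + n ^ 2 := (Nat.prime_dvd_prime_iff_eq hpp hpr).1 h4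
      have h6 : (H : ℝ) ^ (1 / 2 : ℝ) ≤ L := by
        have e1 : (H : ℝ) ≤ L ^ 2 := by
          refine hHL.trans ?_
          have := Real.rpow_le_rpow_of_exponent_le (by linarith : (1 : ℝ) ≤ L) (by norm_num : (3 / 2 : ℝ) ≤ 2)
          refine this.trans (le_of_eq ?_)
          norm_cast
        rw [← Real.sqrt_eq_rpow]
        exact Real.sqrt_le_iff.2 ⟨hL0.le, e1⟩
      have h7 : L < (l : ℝ) ^ 2 := by
        have := Real.sq_sqrt hL0.le
        have h8 : 0 ≤ √L := Real.sqrt_nonneg L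
        nlinarith
      have h9 : (p : ℝ) = (l : ℝ) ^ 2 + (n : ℝ) ^ 2 := by
        rw [h5]; push_cast; ring
      have h10 : (0 : ℝ) ≤ (n : ℝ) ^ 2 := by positivity
      linarith)
    hVV
  have hk0 : 0 < k := by omega
  have ha := hap 0 hk0
  rw [zero_mul, add_zero] at ha
  have ha2 := ha
  rw [hZ, mem_filter] at ha2
  apply ha2.2
  refine ⟨a, d, hd1, ?_, fun i hi => ?_, 0, hk0, by simp⟩
  · refine hdB.trans ?_
    calc Real.log H ^ B ≤ (2 * lg) ^ B := pow_le_pow_left₀ hlogH0.le hlogH B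
      _ = 2 ^ B * lg ^ B := mul_pow _ _ _
      _ ≤ lg * lg ^ B := mul_le_mul_of_nonneg_right a2 (by positivity)
      _ = lg ^ (B + 1) := by ring
  · have := hap i hi
    rw [hZ, mem_filter] at this
    exact this.1

open Classical in
/-- almost all rows -/
theorem main (k A : ℕ) (κ ε : ℝ) (hk : 2 ≤ k) (hκ : 0 < κ) (hε : 0 < ε) : ∃ (B : ℕ) (L₀ : ℝ), 4 ≤ L₀ ∧ ∀ L : ℝ, L₀ ≤ L →
    (((Icc 1 ⌊L⌋₊).filter (fun l : ℕ => ¬ (√L < l ∧ ∀ H : ℕ, L ^ (1 + ε) ≤ H → (H : ℝ) ≤ L ^ (3 / 2 - ε) →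
      Gd k B κ L l H))).card : ℝ) ≤ L / Real.log L ^ A := by
  obtain ⟨η, B, hη, L₁, h1⟩ := one_row k κ hk hκ
  obtain ⟨L₂, hL₂, h2⟩ := Pool.Agent.N782.GN.almost_all Pool.Agent.N782.GN.c_main Pool.Agent.N782.GN.c_ssl ε (A + 3) hε
  obtain ⟨L₃, h3⟩ := exc B (A + 3) η hη
  have tlog : Tendsto (fun L : ℝ => Real.log L) atTop atTop := Real.tendsto_log_atTop
  obtain ⟨L₄, h4⟩ := eventually_atTop.1 ((tlog.eventually_ge_atTop (3 : ℝ)).and
    ((Real.isLittleO_pow_log_id_atTop (n := 2 * (A + 3))).bound one_pos))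
  refine ⟨B + 1, max (max L₁ L₂) (max L₃ (max L₄ 4)), (le_max_right _ _).trans ((le_max_right _ _).trans
    (le_max_right _ _)), fun L hL => ?_⟩
  have g1 : L₁ ≤ L := (le_max_left _ _).trans ((le_max_left _ _).trans hL)
  have g2 : L₂ ≤ L := (le_max_right _ _).trans ((le_max_left _ _).trans hL)
  have g3 : L₃ ≤ L := (le_max_left _ _).trans ((le_max_right _ _).trans hL)
  have g4 : L₄ ≤ L := (le_max_left _ _).trans ((le_max_right _ _).trans ((le_max_right _ _).trans hL))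
  have g5 : (4 : ℝ) ≤ L := (le_max_right _ _).trans ((le_max_right _ _).trans ((le_max_right _ _).trans hL))
  obtain ⟨k1, k2⟩ := h4 L g4
  have hL0 : 0 < L := by linarith
  have hlg : 0 < Real.log L := by linarith
  have hb2 := h2 L g2
  have hb3 := h3 L g3
  set Bad := (Icc 1 ⌊L⌋₊).filter (fun l : ℕ => ¬ ∀ u : ℝ, L ^ (1 + ε) ≤ u → u ≤ L ^ (3 / 2 - ε) →
      |PP (fun _ => 1) l ⌊u⌋₊ - SS l * ∫ t in (2 : ℝ)..u, 1 / (2 * Real.log t)| ≤ u / (Real.log L) ^ (A + 3)) with hBad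
  have hsub : (Icc 1 ⌊L⌋₊).filter (fun l : ℕ => ¬ (√L < l ∧ ∀ H : ℕ, L ^ (1 + ε) ≤ H → (H : ℝ) ≤ L ^ (3 / 2 - ε) →
      Gd k (B + 1) κ L l H)) ⊆ (Icc 1 ⌊√L⌋₊ ∪ Bad) ∪ Ex B η L := by
    intro l hl
    rw [mem_filter] at hl
    obtain ⟨hlI, hng⟩ := hl
    by_contra hcon
    rw [mem_union, mem_union, not_or, not_or] at hcon
    obtain ⟨⟨c1, c2⟩, c3⟩ := hcon
    have hl1 : 1 ≤ l := (mem_Icc.1 hlI).1
    have hlL : (l : ℝ) ≤ L := (Nat.le_floor_iff hL0.le).1 (mem_Icc.1 hlI).2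
    have hbig : √L < l := by
      by_contra hh
      exact c1 (mem_Icc.2 ⟨hl1, Nat.le_floor (not_lt.1 hh)⟩)
    apply hng
    refine ⟨hbig, fun H hH1 hH2 => ?_⟩
    have hgood : ∀ u : ℝ, L ^ (1 + ε) ≤ u → u ≤ L ^ (3 / 2 - ε) →
      |PP (fun _ => 1) l ⌊u⌋₊ - SS l * ∫ t in (2 : ℝ)..u, 1 / (2 * Real.log t)| ≤ u / (Real.log L) ^ (A + 3) := by
      by_contra hh
      exact c2 (mem_filter.2 ⟨hlI, hh⟩)
    have hc := hgood H hH1 hH2
    rw [Nat.floor_natCast] at hc
    have hL1 : (1 : ℝ) ≤ L := by linarith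
    have hLH : L ≤ H := by
      calc L = L ^ (1 : ℝ) := (Real.rpow_one L).symm
        _ ≤ L ^ (1 + ε) := Real.rpow_le_rpow_of_exponent_le hL1 (by linarith)
        _ ≤ H := hH1
    refine h1 L g1 l H hlL hbig hLH (hH2.trans (Real.rpow_le_rpow_of_exponent_le hL1 (by linarith))) c3
      (hc.trans ?_)
    apply div_le_div_of_nonneg_left (by linarith) (by positivity)
    exact pow_le_pow_right₀ (by linarith) (by omega)
  have hsq : √L ≤ L / Real.log L ^ (A + 3) := by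
    rw [id, Real.norm_of_nonneg hL0.le, one_mul, Real.norm_of_nonneg (by positivity), mul_comm 2 (A + 3), pow_mul] at k2
    have h5 : Real.log L ^ (A + 3) ≤ √L := Real.le_sqrt_of_sq_le k2
    rw [le_div_iff₀ (by positivity)]
    calc √L * Real.log L ^ (A + 3) ≤ √L * √L := mul_le_mul_of_nonneg_left h5 (Real.sqrt_nonneg _)
      _ = L := Real.mul_self_sqrt hL0.le
  have hc1 : ((Icc 1 ⌊√L⌋₊).card : ℝ) ≤ √L := by
    rw [Nat.card_Icc, Nat.add_sub_cancel]
    exact Nat.floor_le (Real.sqrt_nonneg _)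
  calc _ ≤ ((((Icc 1 ⌊√L⌋₊ ∪ Bad) ∪ Ex B η L).card : ℕ) : ℝ) := by
        exact_mod_cast card_le_card hsub
    _ ≤ ((Icc 1 ⌊√L⌋₊).card : ℝ) + (Bad.card : ℝ) + ((Ex B η L).card : ℝ) := by
        have e1 := card_union_le (Icc 1 ⌊√L⌋₊ ∪ Bad) (Ex B η L)
        have e2 := card_union_le (Icc 1 ⌊√L⌋₊) Bad
        exact_mod_cast e1.trans (Nat.add_le_add_right e2 _)
    _ ≤ L / Real.log L ^ (A + 3) + L / Real.log L ^ (A + 3) + L / Real.log L ^ (A + 3) :=
        add_le_add (add_le_add (hc1.trans hsq) hb2) hb3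
    _ ≤ L / Real.log L ^ A := by
        have h6 : L / Real.log L ^ (A + 3) = L / Real.log L ^ A / Real.log L ^ 3 := by
          rw [pow_add, div_div]
        rw [h6, ← add_div, ← add_div, div_le_iff₀ (by positivity)]
        have h7 : 0 ≤ L / Real.log L ^ A := by positivity
        have h8 : (3 : ℝ) ≤ Real.log L ^ 3 := by
          calc (3 : ℝ) ≤ Real.log L := k1
            _ ≤ Real.log L ^ 3 := le_self_pow₀ (by linarith) (by norm_num)
        nlinarith

end Pool.Agent.U708.SR
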